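import Pool.Agent.Helper35.HS3.GoalsA

/-! MP_66e6f4_an, project HS3: MV (mean value inequality with the weight `kk`). -/

namespace Pool.Agent.Helper49.HS3.MV

open Pool.Agent.Helper35.HS3
open MeasureTheory Set Filter Topology Metric
open scoped ContDiff

theorem hasDerivAt_G {v : E → ℝ} (hv : ContDiff ℝ 2 v) (x : E) (ρ : ℝ) :
    HasDerivAt (fun ρ : ℝ => ∫ y, kk y * v (x + ρ • y))
      (∫ y, kk y * fderiv ℝ v (x + ρ • y) y) ρ := by
  have hv1 : ContDiff ℝ 1 v := hv.of_le (by norm_num)
  have hfc : Continuous (fderiv ℝ v) := hv1.continuous_fderiv (by norm_num)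
  obtain ⟨M, hM⟩ := (isCompact_closedBall x (|ρ| + 1)).exists_bound_of_continuousOn hfc.continuousOn
  have hM0 : 0 ≤ M := (norm_nonneg _).trans (hM x (mem_closedBall_self (by positivity)))
  have hc1 : ∀ ρ' : ℝ, Continuous fun y : E => x + ρ' • y := fun ρ' => by fun_prop
  refine (hasDerivAt_integral_of_dominated_loc_of_deriv_le
    (F := fun (ρ : ℝ) (y : E) => kk y * v (x + ρ • y))
    (F' := fun (ρ : ℝ) (y : E) => kk y * fderiv ℝ v (x + ρ • y) y)
    (bound := fun y => M * kk y) (s := ball ρ 1) (ball_mem_nhds ρ one_pos) ?_ ?_ ?_ ?_ ?_ ?_).2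
  · refine Eventually.of_forall fun ρ' => ?_
    exact (continuous_kk.mul (hv.continuous.comp (hc1 ρ'))).aestronglyMeasurable
  · exact integrable_kk_mul (hv.continuous.comp (hc1 ρ))
  · have h1 : Continuous fun y : E => fderiv ℝ v (x + ρ • y) y :=
      (hfc.comp (hc1 ρ)).clm_apply continuous_id
    exact (continuous_kk.mul h1).aestronglyMeasurable
  · refine Eventually.of_forall fun y ρ' hρ' => ?_
    rcases le_or_gt 1 ‖y‖ with hy | hy
    · rw [kk_eq_zero hy]
      simp
    · have hρ2 : |ρ'| ≤ |ρ| + 1 := by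
        have h2 : |ρ' - ρ| < 1 := by simpa [Real.dist_eq] using hρ'
        have h3 := abs_sub_abs_le_abs_sub ρ' ρ
        linarith
      have hmem : x + ρ' • y ∈ closedBall x (|ρ| + 1) := by
        rw [mem_closedBall, dist_eq_norm, add_sub_cancel_left, norm_smul, Real.norm_eq_abs]
        have := mul_le_mul hρ2 hy.le (norm_nonneg y) (by positivity)
        linarith
      have h4 : ‖fderiv ℝ v (x + ρ' • y) y‖ ≤ M := by
        refine ((fderiv ℝ v (x + ρ' • y)).le_opNorm y).trans ?_
        have := mul_le_mul (hM _ hmem) hy.le (norm_nonneg y) hM0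
        linarith
      rw [norm_mul, Real.norm_eq_abs, abs_of_nonneg (kk_nonneg y), mul_comm M]
      exact mul_le_mul_of_nonneg_left h4 (kk_nonneg y)
  · exact integrable_kk.const_mul M
  · refine Eventually.of_forall fun y ρ' _ => ?_
    have h1 : HasDerivAt (fun ρ : ℝ => x + ρ • y) y ρ' := by
      have := ((hasDerivAt_id ρ').smul_const y).const_add x
      simpa using this
    have h2 := (diff_of_one hv1 (x + ρ' • y)).hasFDerivAt.comp_hasDerivAt ρ' h1
    exact h2.const_mul (kk y)

theorem G_deriv_eq {v : E → ℝ} (hv : ContDiff ℝ 2 v) (x : E) (ρ : ℝ) :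
    ∫ y, kk y * fderiv ℝ v (x + ρ • y) y = ρ / 4 * ∫ y, kk y ^ 2 * lap v (x + ρ • y) := by
  have hv1 : ContDiff ℝ 1 v := hv.of_le (by norm_num)
  have hc1 : Continuous fun y : E => x + ρ • y := by fun_prop
  have hci : ∀ i : Fin 3, Continuous fun y : E => pd i v (x + ρ • y) := fun i =>
    (continuous_pd hv1).comp hc1
  have hcii : ∀ i : Fin 3, Continuous fun y : E => pd i (pd i v) (x + ρ • y) := fun i =>
    (continuous_pd_pd hv).comp hc1
  have hy : ∀ i : Fin 3, Continuous fun y : E => y i := fun i =>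
    (contDiff_coord i (n := 1)).continuous
  -- each coordinate
  have hcoord : ∀ i : Fin 3, ∫ y, kk y * (y i * pd i v (x + ρ • y)) =
      ρ / 4 * ∫ y, kk y ^ 2 * pd i (pd i v) (x + ρ • y) := by
    intro i
    have hvi : ContDiff ℝ 1 (fun y : E => pd i v (x + ρ • y)) :=
      contDiff_scale (contDiff_one_pd hv) x ρ
    have h1 := integral_mul_pd i contDiff_kk_sq hasCompactSupport_kk_sq hvi
    have h2 : ∀ y : E, kk y ^ 2 * pd i (fun y : E => pd i v (x + ρ • y)) y =
        ρ * (kk y ^ 2 * pd i (pd i v) (x + ρ • y)) := by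
      intro y
      rw [pd_scale i (contDiff_one_pd hv) x ρ y]
      ring
    have h3 : ∀ y : E, pd i v (x + ρ • y) * pd i (fun y => kk y ^ 2) y =
        (-4) * (kk y * (y i * pd i v (x + ρ • y))) := by
      intro y
      rw [pd_kk_sq]
      ring
    rw [integral_congr_ae (Eventually.of_forall h2), integral_congr_ae (Eventually.of_forall h3),
      integral_const_mul, integral_const_mul] at h1
    linarith
  have h5 : ∀ y : E, kk y * fderiv ℝ v (x + ρ • y) y =
      ∑ i, kk y * (y i * pd i v (x + ρ • y)) := by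
    intro y
    rw [fderiv_eq_sum, Finset.mul_sum]
  have h6 : ∀ y : E, kk y ^ 2 * lap v (x + ρ • y) =
      ∑ i, kk y ^ 2 * pd i (pd i v) (x + ρ • y) := by
    intro y
    unfold lap
    rw [Finset.mul_sum]
  have hI1 : ∀ i : Fin 3, Integrable (fun y : E => kk y * (y i * pd i v (x + ρ • y))) := fun i =>
    integrable_kk_mul ((hy i).mul (hci i))
  have hI2 : ∀ i : Fin 3, Integrable (fun y : E => kk y ^ 2 * pd i (pd i v) (x + ρ • y)) := fun i =>
    integrable_kk_sq_mul (hcii i)
  rw [integral_congr_ae (Eventually.of_forall h5), integral_congr_ae (Eventually.of_forall h6),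
    integral_finsetSum _ fun i _ => hI1 i,
    integral_finsetSum _ fun i _ => hI2 i, Finset.mul_sum]
  exact Finset.sum_congr rfl fun i _ => hcoord i

theorem proof : MV_stmt := by
  intro v x r c hv hr hlap
  set G : ℝ → ℝ := fun ρ => ∫ y, kk y * v (x + ρ • y) with hG
  have hd : ∀ ρ, HasDerivAt G (ρ / 4 * ∫ y, kk y ^ 2 * lap v (x + ρ • y)) ρ := by
    intro ρ
    rw [← G_deriv_eq hv x ρ]
    exact hasDerivAt_G hv x ρ
  have hd2 : ∀ ρ, HasDerivAt (fun ρ => G ρ - c * k1 * ρ ^ 2 / 8)
      (ρ / 4 * (∫ y, kk y ^ 2 * lap v (x + ρ • y)) - c * k1 * ρ / 4) ρ := by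
    intro ρ
    have h1 : HasDerivAt (fun ρ : ℝ => c * k1 * ρ ^ 2 / 8) (c * k1 * ρ / 4) ρ := by
      refine (((hasDerivAt_pow 2 ρ).const_mul (c * k1)).div_const 8).congr_deriv ?_
      push_cast
      ring
    exact (hd ρ).sub h1
  have hmono : MonotoneOn (fun ρ => G ρ - c * k1 * ρ ^ 2 / 8) (Icc 0 r) := by
    refine monotoneOn_of_deriv_nonneg (convex_Icc 0 r)
      (fun ρ _ => (hd2 ρ).continuousAt.continuousWithinAt)
      (fun ρ _ => (hd2 ρ).differentiableAt.differentiableWithinAt) fun ρ hρ => ?_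
    rw [interior_Icc] at hρ
    rw [(hd2 ρ).deriv]
    have hc1 : Continuous fun y : E => x + ρ • y := by fun_prop
    have h1 : c * k1 ≤ ∫ y, kk y ^ 2 * lap v (x + ρ • y) := by
      have h2 : c * k1 = ∫ y, kk y ^ 2 * c := by
        rw [integral_mul_const, mul_comm]
        rfl
      rw [h2]
      refine integral_mono (integrable_kk_sq_mul continuous_const)
        (integrable_kk_sq_mul ((continuous_lap hv).comp hc1)) fun y => ?_
      rcases le_or_gt 1 ‖y‖ with hy | hy
      · simp [kk_eq_zero hy]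
      · refine mul_le_mul_of_nonneg_left (hlap _ ?_) (sq_nonneg _)
        rw [mem_ball, dist_eq_norm, add_sub_cancel_left, norm_smul, Real.norm_eq_abs,
          abs_of_pos hρ.1]
        have := mul_lt_mul'' hρ.2 hy hρ.1.le (norm_nonneg y)
        linarith
    have h3 : ρ * (c * k1) ≤ ρ * ∫ y, kk y ^ 2 * lap v (x + ρ • y) :=
      mul_le_mul_of_nonneg_left h1 hρ.1.le
    linarith
  have h0 : G 0 = k0 * v x := by
    simp only [hG, zero_smul, add_zero]
    rw [integral_mul_const]
    rfl
  have h7 := hmono (left_mem_Icc.2 hr.le) (right_mem_Icc.2 hr.le) hr.le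
  simp only [h0] at h7
  have h8 : G r = ∫ y, kk y * v (x + r • y) := rfl
  rw [h8] at h7
  linarith

end Pool.Agent.Helper49.HS3.MV
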