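import Pool.Agent.Helper35.HS3.GoalsB

/-! MP_66e6f4_an, project HS3: SMA (in the right half-space `u` is small on a set of density 0). -/

namespace Pool.Agent.Helper49.HS3.SMA

open Pool.Agent.Helper35.HS3
open MeasureTheory Set Filter Topology Metric
open scoped ContDiff

theorem proof : SMA_stmt := by
  intro u α β A hu hbd hα hA ε hε
  set ε1 : ℝ := min ε 1 with hε1
  have hε1pos : 0 < ε1 := lt_min hε one_pos
  have hε1le : ε1 ≤ ε := min_le_left _ _
  set δ : ℝ := ε1 / 8 with hδ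
  have hδpos : 0 < δ := by positivity
  have hε' : 0 < α * δ * ε1 / 4 := by positivity
  obtain ⟨R₀, hR₀⟩ := hbd.limr (α * δ * ε1 / 4) hε'
  refine ⟨max (max R₀ 1) (2 * A / (α * δ)), fun R hR => ?_⟩
  have hRR₀ : R₀ ≤ R := (le_max_left _ _).trans ((le_max_left _ _).trans hR)
  have hR1 : 1 ≤ R := (le_max_right _ _).trans ((le_max_left _ _).trans hR)
  have hRpos : 0 < R := by linarith
  have hRA : 2 * A ≤ α * δ * R := by
    have h1 : 2 * A / (α * δ) ≤ R := (le_max_right _ _).trans hR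
    rw [div_le_iff₀ (by positivity)] at h1
    linarith
  have hlim := hR₀ R hRR₀
  set S1 : Set E := {x : E | ‖x‖ < R ∧ 0 < 1 * x 0 ∧ 1 * x 0 < δ * R} with hS1
  set S2 : Set E := {x : E | x ∈ Hs 1 ∩ ball (0 : E) R ∧ δ * R ≤ x 0 ∧ u x < A} with hS2
  have hx0 : Continuous fun x : E => x 0 := (contDiff_coord 0 (n := 1)).continuous
  have hHm : MeasurableSet (Hs 1 ∩ ball (0 : E) R) := (measurableSet_Hs 1).inter measurableSet_ball
  have hS2m : MeasurableSet S2 :=
    hHm.inter ((measurableSet_le measurable_const hx0.measurable).inter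
      (measurableSet_lt hu.measurable measurable_const))
  have hsub : {x | x ∈ Hs 1 ∧ x ∈ ball (0 : E) R ∧ u x < A} ⊆ S1 ∪ S2 := by
    rintro x ⟨h1, h2, h3⟩
    rcases lt_or_ge (x 0) (δ * R) with h | h
    · left
      refine ⟨by simpa using h2, h1, by simpa using h⟩
    · exact Or.inr ⟨⟨h1, h2⟩, h, h3⟩
  have hS1sub : S1 ⊆ ball (0 : E) R := fun x hx => by simpa using hx.1
  have hS2sub : S2 ⊆ Hs 1 ∩ ball (0 : E) R := fun x hx => hx.1
  have hbf : volume (ball (0 : E) R) ≠ ⊤ := measure_ball_lt_top.ne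
  have hS1f : volume S1 ≠ ⊤ := measure_ne_top_of_subset hS1sub hbf
  have hS2f : volume S2 ≠ ⊤ := measure_ne_top_of_subset (hS2sub.trans inter_subset_right) hbf
  have hv1 : volume.real S1 ≤ 4 * (δ * R) * R ^ 2 :=
    vol_slab (Or.inl rfl) hRpos.le (by positivity)
  have hwc : Continuous fun x : E => α * x 0 - u x := (continuous_const.mul hx0).sub hu
  have hint : IntegrableOn (fun x : E => α * x 0 - u x) (Hs 1 ∩ ball 0 R) :=
    integrableOn_Hs_ball hwc 1 R
  have h1 : ∫ x in S2, (α * x 0 - u x) ≤ ∫ x in Hs 1 ∩ ball (0 : E) R, (α * x 0 - u x) := by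
    refine setIntegral_mono_set hint ?_ (LE.le.eventuallyLE hS2sub)
    refine (ae_restrict_iff' hHm).2 (Eventually.of_forall fun x hx => ?_)
    have hx1 : 0 < 1 * x 0 := hx.1
    have := hbd.right x (by linarith)
    simp only [Pi.zero_apply]
    linarith
  have h2 : (α * δ * R / 2) * volume.real S2 ≤ ∫ x in S2, (α * x 0 - u x) := by
    have h3 : ∫ x in S2, (α * δ * R / 2 : ℝ) = (α * δ * R / 2) * volume.real S2 := by
      rw [setIntegral_const, smul_eq_mul, mul_comm]
    rw [← h3]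
    refine setIntegral_mono_on (integrableOn_const hS2f) (hint.mono_set hS2sub) hS2m
      fun x hx => ?_
    have h4 : α * (δ * R) ≤ α * x 0 := mul_le_mul_of_nonneg_left hx.2.1 hα.le
    have h5 : u x < A := hx.2.2
    nlinarith
  have h6 : (α * δ * R / 2) * volume.real S2 ≤ α * δ * ε1 / 4 * R ^ 4 := h2.trans (h1.trans hlim)
  have h7 : volume.real S2 ≤ ε1 / 2 * R ^ 3 := by
    have hc : 0 < α * δ * R / 2 := by positivity
    have h8 : α * δ * ε1 / 4 * R ^ 4 = (α * δ * R / 2) * (ε1 / 2 * R ^ 3) := by ring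
    rw [h8] at h6
    exact le_of_mul_le_mul_left h6 hc
  have h9 : volume.real {x | x ∈ Hs 1 ∧ x ∈ ball (0 : E) R ∧ u x < A} ≤
      volume.real S1 + volume.real S2 := by
    refine (measureReal_mono hsub ?_).trans (measureReal_union_le S1 S2)
    exact (measure_union_lt_top hS1f.lt_top hS2f.lt_top).ne
  have h10 : 4 * (δ * R) * R ^ 2 = ε1 / 2 * R ^ 3 := by rw [hδ]; ring
  have h11 : ε1 * R ^ 3 ≤ ε * R ^ 3 := mul_le_mul_of_nonneg_right hε1le (by positivity)
  linarith

end Pool.Agent.Helper49.HS3.SMA
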